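import Pool.Agent.helper56.CT.SpecA

/-! Module JZ1 of project cd (MP_45d809_mp): the order of the first two vertices does not matter. -/

namespace CT
open Finset

section JZ1sec
variable {D : Type*} [DecidableEq D]

theorem JZ1_ne (e : D → D) (he : ∀ d, e (e d) = d) {x y z : D} (hxy : x ≠ y) (hzx : z ≠ x)
    (hzy : z ≠ y) (hz : e z ≠ z) : join e x y z ≠ z := by
  unfold join
  rw [if_neg (by tauto)]
  split_ifs with h1 h2
  · intro h
    apply hxy
    rw [← h1, ← h, he]
  · intro h
    apply hxy
    rw [← h2, ← h, he]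
  · exact hz

/-- one join moves past two -/
theorem JZ1_three (e : D → D) (he : ∀ d, e (e d) = d) {a b c d p q : D}
    (hn : [a, b, c, d, p, q].Nodup) (hact : ∀ z ∈ [a, b, c, d, p, q], e z ≠ z) :
    join (join (join e a b) c d) p q = join (join (join e p q) a b) c d ∧
    lp e a b + lp (join e a b) c d + lp (join (join e a b) c d) p q =
      lp e p q + (lp (join e p q) a b + lp (join (join e p q) a b) c d) := by
  simp only [List.nodup_cons, List.mem_cons, List.not_mem_nil, or_false, not_or,
    List.nodup_nil, and_true, not_false_eq_true] at hn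
  obtain ⟨⟨ab, ac, ad, ap, aq⟩, ⟨bc, bd, bp, bq⟩, ⟨cd, cp, cq⟩, ⟨dp, dq⟩, pq⟩ := hn
  have ha := hact a (by simp)
  have hb := hact b (by simp)
  have hc := hact c (by simp)
  have hd := hact d (by simp)
  have hp := hact p (by simp)
  have hq := hact q (by simp)
  have he1 := join_invol e he ab ha hb
  have c1 : join e a b c ≠ c := JZ1_ne e he ab (Ne.symm ac) (Ne.symm bc) hc
  have d1 : join e a b d ≠ d := JZ1_ne e he ab (Ne.symm ad) (Ne.symm bd) hd
  have p1 : join e a b p ≠ p := JZ1_ne e he ab (Ne.symm ap) (Ne.symm bp) hp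
  have q1 : join e a b q ≠ q := JZ1_ne e he ab (Ne.symm aq) (Ne.symm bq) hq
  have j1 := join_comm (join e a b) he1 cd cp cq dp dq pq c1 d1 p1 q1
  have j2 := join_comm e he ab ap aq bp bq pq ha hb hp hq
  have l1 := lp_comm (join e a b) he1 cd cp cq dp dq pq c1 d1 p1 q1
  have l2 := lp_comm e he ab ap aq bp bq pq ha hb hp hq
  constructor
  · rw [j1, j2]
  · rw [← j2]
    omega

/-- two joins move past two -/
theorem JZ1_four (e : D → D) (he : ∀ d, e (e d) = d) {a b c d p q r s : D}
    (hn : [a, b, c, d, p, q, r, s].Nodup) (hact : ∀ z ∈ [a, b, c, d, p, q, r, s], e z ≠ z) :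
    join (join (join (join e a b) c d) p q) r s = join (join (join (join e p q) r s) a b) c d ∧
    (lp e a b + lp (join e a b) c d) + (lp (join (join e a b) c d) p q +
      lp (join (join (join e a b) c d) p q) r s) =
      (lp e p q + lp (join e p q) r s) + (lp (join (join e p q) r s) a b +
        lp (join (join (join e p q) r s) a b) c d) := by
  have hn1 : [a, b, c, d, p, q].Nodup := by
    have : [a, b, c, d, p, q, r, s] = [a, b, c, d, p, q] ++ [r, s] := rfl
    rw [this] at hn
    exact hn.of_append_left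
  have ha1 : ∀ z ∈ [a, b, c, d, p, q], e z ≠ z := by
    intro z hz
    apply hact
    simp only [List.mem_cons, List.not_mem_nil, or_false] at hz ⊢
    tauto
  have h1 := JZ1_three e he hn1 ha1
  have hn' := hn
  simp only [List.nodup_cons, List.mem_cons, List.not_mem_nil, or_false, not_or,
    List.nodup_nil, and_true, not_false_eq_true] at hn'
  obtain ⟨⟨ab, ac, ad, ap, aq, ar, as⟩, ⟨bc, bd, bp, bq, br, bs⟩, ⟨cd, cp, cq, cr, cs⟩,
    ⟨dp, dq, dr, ds⟩, ⟨pq, pr, ps⟩, ⟨qr, qs⟩, rs⟩ := hn'
  have hp := hact p (by simp)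
  have hq := hact q (by simp)
  have he1 := join_invol e he pq hp hq
  have hn2 : [a, b, c, d, r, s].Nodup := by
    simp only [List.nodup_cons, List.mem_cons, List.not_mem_nil, or_false, not_or,
      List.nodup_nil, and_true, not_false_eq_true]
    tauto
  have ha2 : ∀ z ∈ [a, b, c, d, r, s], join e p q z ≠ z := by
    intro z hz
    have hz2 : e z ≠ z := by
      apply hact
      simp only [List.mem_cons, List.not_mem_nil, or_false] at hz ⊢
      tauto
    simp only [List.mem_cons, List.not_mem_nil, or_false] at hz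
    refine JZ1_ne e he pq ?_ ?_ hz2
    · rintro rfl
      rcases hz with h | h | h | h | h | h <;> first | exact absurd h.symm ‹_› | exact absurd h ‹_›
    · rintro rfl
      rcases hz with h | h | h | h | h | h <;> first | exact absurd h.symm ‹_› | exact absurd h ‹_›
  have h2 := JZ1_three (join e p q) he1 hn2 ha2
  constructor
  · rw [h1.1, h2.1]
  · rw [h1.1]
    omega

end JZ1sec

section
variable {V : Type} [DecidableEq V]

theorem JZ1_pr (t : Fin 3) : [(pr t).1, (pr t).2.1, (pr t).2.2.1, (pr t).2.2.2].Nodup := by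
  revert t
  decide

theorem JZ1_sm (e : V × Fin 4 → V × Fin 4) (he : ∀ d, e (e d) = d) {u w : V} (huw : u ≠ w)
    (hu : ∀ i, e (u, i) ≠ (u, i)) (hw : ∀ i, e (w, i) ≠ (w, i)) (t t' : Fin 3) :
    sm (sm e u t) w t' = sm (sm e w t') u t ∧
    ls e u t + ls (sm e u t) w t' = ls e w t' + ls (sm e w t') u t := by
  have hn : [(u, (pr t).1), (u, (pr t).2.1), (u, (pr t).2.2.1), (u, (pr t).2.2.2),
      (w, (pr t').1), (w, (pr t').2.1), (w, (pr t').2.2.1), (w, (pr t').2.2.2)].Nodup := by
    have h1 := JZ1_pr t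
    have h2 := JZ1_pr t'
    simp only [List.nodup_cons, List.mem_cons, List.not_mem_nil, or_false, not_or,
      List.nodup_nil, and_true, not_false_eq_true, Prod.mk.injEq, true_and, huw, false_and] at *
    tauto
  have hact : ∀ z ∈ [(u, (pr t).1), (u, (pr t).2.1), (u, (pr t).2.2.1), (u, (pr t).2.2.2),
      (w, (pr t').1), (w, (pr t').2.1), (w, (pr t').2.2.1), (w, (pr t').2.2.2)], e z ≠ z := by
    intro z hz
    simp only [List.mem_cons, List.not_mem_nil, or_false] at hz
    rcases hz with rfl | rfl | rfl | rfl | rfl | rfl | rfl | rfl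
    · exact hu _
    · exact hu _
    · exact hu _
    · exact hu _
    · exact hw _
    · exact hw _
    · exact hw _
    · exact hw _
  exact JZ1_four e he hn hact

end

theorem JZ1 : JZ1_stmt := by
  intro V _ x u w L e he huw hu hw
  have h1 : ∀ e : V × Fin 4 → V × Fin 4, ∀ u : V, ∀ L : List V,
      Z x (u :: L) e = ∑ t : Fin 3, x ^ ls e u t * Z x L (sm e u t) := fun _ _ _ => rfl
  rw [h1, h1]
  simp only [h1, Finset.mul_sum]
  rw [Finset.sum_comm]
  refine Finset.sum_congr rfl fun t' _ => Finset.sum_congr rfl fun t _ => ?_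
  obtain ⟨a1, a2⟩ := JZ1_sm e he huw hu hw t t'
  rw [← mul_assoc, ← mul_assoc, ← pow_add, ← pow_add, a1, a2]

end CT
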