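import Pool.Agent.helper56.CT.SpecA

/-! Module JZ2 of project cd (MP_45d809_mp): `Z` is invariant under permutations of the list. -/

namespace CT
open Finset

section JZ2sec
variable {D : Type*} [DecidableEq D]

theorem JZ2_ne (e : D → D) (he : ∀ d, e (e d) = d) {x y z : D} (hxy : x ≠ y) (hzx : z ≠ x)
    (hzy : z ≠ y) (hz : e z ≠ z) : join e x y z ≠ z := by
  unfold join
  rw [if_neg (by tauto)]
  split_ifs with h1 h2
  · intro h
    apply hxy
    rw [← h1, ← h, he]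
  · intro h
    apply hxy
    rw [← h2, ← h, he]
  · exact hz

end JZ2sec

section
variable {V : Type} [DecidableEq V]

theorem JZ2_pr (t : Fin 3) : (pr t).1 ≠ (pr t).2.1 ∧ (pr t).2.2.1 ≠ (pr t).2.2.2 ∧
    (pr t).2.2.1 ≠ (pr t).1 ∧ (pr t).2.2.1 ≠ (pr t).2.1 ∧ (pr t).2.2.2 ≠ (pr t).1 ∧
    (pr t).2.2.2 ≠ (pr t).2.1 := by
  revert t
  decide

theorem JZ2_sm (e : V × Fin 4 → V × Fin 4) (he : ∀ d, e (e d) = d) {u : V}
    (hu : ∀ i, e (u, i) ≠ (u, i)) (t : Fin 3) :
    (∀ d, sm e u t (sm e u t d) = d) ∧ ∀ d : V × Fin 4, d.1 ≠ u → e d ≠ d → sm e u t d ≠ d := by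
  obtain ⟨h1, h2, h3, h4, h5, h6⟩ := JZ2_pr t
  have k : ∀ {i j : Fin 4}, i ≠ j → (u, i) ≠ (u, j) := by
    intro i j hij h
    exact hij (Prod.mk.inj h).2
  have he1 := join_invol e he (k h1) (hu _) (hu _)
  have a3 := JZ2_ne e he (k h1) (k h3) (k h4) (hu _)
  have a4 := JZ2_ne e he (k h1) (k h5) (k h6) (hu _)
  refine ⟨join_invol _ he1 (k h2) a3 a4, ?_⟩
  intro d hd hed
  have kd : ∀ i, d ≠ (u, i) := by
    intro i h
    apply hd
    rw [h]
  exact JZ2_ne _ he1 (k h2) (kd _) (kd _) (JZ2_ne e he (k h1) (kd _) (kd _) hed)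

end

theorem JZ2 (hJZ1 : JZ1_stmt) : JZ2_stmt := by
  intro V _ x L L' e hp
  induction hp generalizing e with
  | nil => intros; rfl
  | cons u p ih =>
    intro hn he ha
    show ∑ t : Fin 3, x ^ ls e u t * Z x _ (sm e u t) = ∑ t : Fin 3, x ^ ls e u t * Z x _ (sm e u t)
    refine Finset.sum_congr rfl fun t _ => ?_
    obtain ⟨h1, h2⟩ := JZ2_sm e he (ha u (List.mem_cons_self ..)) t
    rw [List.nodup_cons] at hn
    rw [ih (sm e u t) hn.2 h1]
    intro v hv i
    apply h2 (v, i)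
    · rintro rfl
      exact hn.1 hv
    · exact ha v (List.mem_cons_of_mem _ hv) i
  | swap u w l =>
    intro hn he ha
    rw [List.nodup_cons] at hn
    have hne : w ≠ u := by
      rintro rfl
      exact hn.1 (List.mem_cons_self ..)
    exact hJZ1 V x w u l e he hne (ha w (by simp)) (ha u (by simp))
  | trans p q ih1 ih2 =>
    intro hn he ha
    rw [ih1 e hn he ha, ih2 e (p.nodup_iff.1 hn) he]
    intro u hu
    exact ha u (p.mem_iff.2 hu)

end CT
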