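import Pool.Agent.helper56.CT.SpecA

/-! Module D0 of project cd (MP_45d809_mp): symmetries of the six-leg term. -/

namespace CT
open Finset

section D0sec
variable {D : Type*} [DecidableEq D]

theorem D0_ne (e : D → D) (he : ∀ d, e (e d) = d) {x y z : D} (hxy : x ≠ y) (hzx : z ≠ x)
    (hzy : z ≠ y) (hz : e z ≠ z) : join e x y z ≠ z := by
  unfold join
  rw [if_neg (by tauto)]
  split_ifs with h1 h2
  · intro h
    apply hxy
    rw [← h1, ← h, he]
  · intro h
    apply hxy
    rw [← h2, ← h, he]
  · exact hz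

end D0sec

theorem D0 : D0_stmt := by
  intro V _ x L e a b c d f g he hn hact
  simp only [List.nodup_cons, List.mem_cons, List.not_mem_nil, or_false, not_or,
    List.nodup_nil, and_true, not_false_eq_true] at hn
  obtain ⟨⟨ab, ac, ad, af, ag⟩, ⟨bc, bd, bf, bg⟩, ⟨cd, cf, cg⟩, ⟨df, dg⟩, fg⟩ := hn
  have ha := hact a (by simp)
  have hb := hact b (by simp)
  have hc := hact c (by simp)
  have hd := hact d (by simp)
  have hf := hact f (by simp)
  have hg := hact g (by simp)
  have he1 := join_invol e he ab ha hb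
  have c1 : join e a b c ≠ c := D0_ne e he ab (Ne.symm ac) (Ne.symm bc) hc
  have d1 : join e a b d ≠ d := D0_ne e he ab (Ne.symm ad) (Ne.symm bd) hd
  have f1 : join e a b f ≠ f := D0_ne e he ab (Ne.symm af) (Ne.symm bf) hf
  have g1 : join e a b g ≠ g := D0_ne e he ab (Ne.symm ag) (Ne.symm bg) hg
  have he2 := join_invol _ he1 cd c1 d1
  refine ⟨?_, ?_, ?_, ?_, ?_⟩
  · have j := join_comm e he ab ac ad bc bd cd ha hb hc hd
    have l := lp_comm e he ab ac ad bc bd cd ha hb hc hd
    unfold T3 join3 lp3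
    rw [j, l]
  · have j := join_comm (join e a b) he1 cd cf cg df dg fg c1 d1 f1 g1
    have l := lp_comm (join e a b) he1 cd cf cg df dg fg c1 d1 f1 g1
    unfold T3 join3 lp3
    rw [j, add_assoc, l, ← add_assoc]
  · unfold T3 join3 lp3
    rw [join_symm e he b a, lp_symm e he b a]
  · unfold T3 join3 lp3
    rw [join_symm _ he1 d c, lp_symm _ he1 d c]
  · unfold T3 join3 lp3
    rw [join_symm _ he2 g f, lp_symm _ he2 g f]

end CT
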