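import Pool.Agent.helper56.CT.SpecB

/-! Module A3b of project cd (MP_45d809_mp): spanning trees with exactly two star edges. -/

namespace CT
open Finset

theorem A3b_two {E N : Type} [Fintype N] [DecidableEq N] {inc : E → N → ZMod 2}
    (h : TwoEnds inc) (e : E) : ∑ n, inc e n = 0 := by
  obtain ⟨m, n, hmn, hk⟩ := h e
  have h1 : ∀ k, inc e k = (if k = m then 1 else 0) + (if k = n then 1 else 0) := by
    intro k
    rw [hk]
    by_cases h1 : k = m
    · have h2 : k ≠ n := by rw [h1]; exact hmn
      simp [h1, hmn]
    · simp [h1]
  simp only [h1, Finset.sum_add_distrib, Finset.sum_ite_eq', Finset.mem_univ, if_true]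
  decide

theorem A3b_char (t s : ZMod 2) (h : t + s = 0) : t = s := by
  revert t s
  decide

theorem A3b_char2 (t : ZMod 2) : t + t = 0 := by
  revert t
  decide

theorem A3b_total {E N : Type} [Fintype E] [Fintype N] [DecidableEq N] {inc : E → N → ZMod 2}
    (h : TwoEnds inc) (y : E → ZMod 2) : ∑ n, ∑ e, inc e n * y e = 0 := by
  rw [Finset.sum_comm]
  apply Finset.sum_eq_zero
  intro e _
  rw [← Finset.sum_mul, A3b_two h, zero_mul]

theorem A3b : A3b_stmt := by
  intro E N _ _ _ _ inc a T i j h2 hinj hij
  have hpq : a i ≠ a j := fun h => hij (hinj h)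
  have hg0 : ∀ n, g2 (a i) (a j) n = none ↔ n ≠ a i ∧ n ≠ a j := by
    intro n
    unfold g2
    by_cases h1 : n = a i
    · simp [h1]
    · by_cases h3 : n = a j
      · simp [h3, hpq.symm]
      · simp [h1, h3]
  have hg1 : ∀ n m, g2 (a i) (a j) n = some m → m = a i ∨ m = a j := by
    intro n m
    unfold g2
    by_cases h1 : n = a i
    · simp only [h1, if_true, Option.some.injEq]
      intro h
      exact Or.inl h.symm
    · by_cases h3 : n = a j
      · simp only [h3, hpq.symm, if_true, if_false, Option.some.injEq]
        intro h
        exact Or.inr h.symm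
      · simp [h1, h3]
  have hgi : g2 (a i) (a j) (a i) = some (a i) := by simp [g2]
  have hgj : g2 (a i) (a j) (a j) = some (a j) := by simp [g2, hpq.symm]
  have hmem : ∀ b : E ⊕ Fin 3, b ∈ (T.map Function.Embedding.inl ∪ {Sum.inr i, Sum.inr j} :
      Finset (E ⊕ Fin 3)) ↔ (∃ e ∈ T, b = Sum.inl e) ∨ b = Sum.inr i ∨ b = Sum.inr j := by
    intro b
    simp only [Finset.mem_union, Finset.mem_map, Function.Embedding.inl_apply, Finset.mem_insert,
      Finset.mem_singleton]
    constructor
    · rintro (⟨e, he, h⟩ | h)
      · exact Or.inl ⟨e, he, h.symm⟩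
      · exact Or.inr h
    · rintro (⟨e, he, h⟩ | h)
      · exact Or.inl ⟨e, he, h.symm⟩
      · exact Or.inr h
  have hsumS : ∀ (y : E ⊕ Fin 3 → ZMod 2) (n : N),
      ∑ b, incF inc a b (some n) * y b = (∑ e, inc e n * y (Sum.inl e)) +
        ∑ k, (if n = a k then 1 else 0) * y (Sum.inr k) := by
    intro y n
    rw [Fintype.sum_sum_type]
    rfl
  have hsumN : ∀ (y : E ⊕ Fin 3 → ZMod 2),
      ∑ b, incF inc a b none * y b = ∑ k, y (Sum.inr k) := by
    intro y
    rw [Fintype.sum_sum_type]
    have e1 : ∑ e : E, incF inc a (Sum.inl e) none * y (Sum.inl e) = 0 := by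
      apply Finset.sum_eq_zero
      intro e _
      show (0 : ZMod 2) * _ = 0
      rw [zero_mul]
    rw [e1, zero_add]
    refine Finset.sum_congr rfl fun k _ => ?_
    show (1 : ZMod 2) * _ = _
    rw [one_mul]
  have hphiL : ∀ (φ : Option N → ZMod 2) (e : E),
      ∑ n, incF inc a (Sum.inl e) n * φ n = ∑ n, inc e n * φ (some n) := by
    intro φ e
    rw [Fintype.sum_option]
    show (0 : ZMod 2) * _ + _ = _
    rw [zero_mul, zero_add]
    rfl
  have hphiR : ∀ (φ : Option N → ZMod 2) (k : Fin 3),
      ∑ n, incF inc a (Sum.inr k) n * φ n = φ none + φ (some (a k)) := by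
    intro φ k
    rw [Fintype.sum_option]
    show (1 : ZMod 2) * _ + ∑ n, (if n = a k then (1 : ZMod 2) else 0) * φ (some n) = _
    simp
  -- sum over the three star edges if only `i`, `j` carry a current
  have hstar : ∀ (z c : Fin 3 → ZMod 2), (∀ k, k ≠ i → k ≠ j → z k = 0) →
      ∑ k, c k * z k = c i * z i + c j * z j := by
    intro z c hz
    rw [← Finset.sum_pair (f := fun k => c k * z k) hij]
    symm
    apply Finset.sum_subset (Finset.subset_univ _)
    intro k _ hk
    simp only [Finset.mem_insert, Finset.mem_singleton, not_or] at hk
    rw [hz k hk.1 hk.2, mul_zero]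
  unfold LT KTn
  constructor
  · rintro ⟨H1, H2⟩
    refine ⟨?_, ?_⟩
    · intro y hy hK
      set t := ∑ e, inc e (a i) * y e with ht
      have htot := A3b_total h2 y
      have htj : ∑ e, inc e (a j) * y e = t := by
        have h3 : ∑ n, ∑ e, inc e n * y e = (∑ e, inc e (a i) * y e) + ∑ e, inc e (a j) * y e := by
          rw [← Finset.sum_pair (f := fun n => ∑ e, inc e n * y e) hpq]
          symm
          apply Finset.sum_subset (Finset.subset_univ _)
          intro n _ hn
          simp only [Finset.mem_insert, Finset.mem_singleton, not_or] at hn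
          exact hK n ((hg0 n).2 hn)
        rw [h3] at htot
        exact (A3b_char _ _ htot).symm
      have h4 := H1 (Sum.elim y (fun k => if k = i ∨ k = j then t else 0)) ?_ ?_
      · funext e
        exact congrFun h4 (Sum.inl e)
      · intro b hb
        rw [hmem] at hb
        rcases b with e | k
        · apply hy
          intro he
          exact hb (Or.inl ⟨e, he, rfl⟩)
        · show (if k = i ∨ k = j then t else 0) = 0
          rw [if_neg]
          rintro (rfl | rfl)
          · exact hb (Or.inr (Or.inl rfl))
          · exact hb (Or.inr (Or.inr rfl))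
      · intro n
        rcases n with _ | n
        · rw [hsumN]
          show ∑ k, (if k = i ∨ k = j then t else 0) = 0
          have h5 := hstar (fun k => if k = i ∨ k = j then t else 0) (fun _ => 1) (by
            intro k h1 h2
            simp [h1, h2])
          simp only [one_mul] at h5
          rw [h5]
          simp only [true_or, or_true, if_true]
          exact A3b_char2 t
        · rw [hsumS]
          show (∑ e, inc e n * y e) +
            ∑ k, (if n = a k then 1 else 0) * (if k = i ∨ k = j then t else 0) = 0
          rw [hstar (fun k => if k = i ∨ k = j then t else 0) (fun k => if n = a k then 1 else 0) (by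
            intro k h1 h2
            simp [h1, h2])]
          simp only [true_or, or_true, if_true]
          by_cases h5 : n = a i
          · subst h5
            rw [if_pos rfl, if_neg hpq, ← ht, one_mul, zero_mul, add_zero]
            exact A3b_char2 t
          · by_cases h6 : n = a j
            · subst h6
              rw [if_neg hpq.symm, if_pos rfl, htj, one_mul, zero_mul, zero_add]
              exact A3b_char2 t
            · rw [if_neg h5, if_neg h6, hK n ((hg0 n).2 ⟨h5, h6⟩)]
              simp
    · intro φ hφ hφ0
      have h4 := H2 (fun n => n.elim 0 φ) ?_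
      · funext n
        exact h4 (some n) none
      · intro b hb
        rw [hmem] at hb
        rcases hb with ⟨e, he, rfl⟩ | rfl | rfl
        · rw [hphiL]
          exact hφ e he
        · rw [hphiR]
          show (0 : ZMod 2) + φ (a i) = 0
          rw [hφ0 (a i) (a i) hgi, add_zero]
        · rw [hphiR]
          show (0 : ZMod 2) + φ (a j) = 0
          rw [hφ0 (a j) (a j) hgj, add_zero]
  · rintro ⟨H1, H2⟩
    refine ⟨?_, ?_⟩
    · intro y hy hK
      have hz : ∀ k, k ≠ i → k ≠ j → y (Sum.inr k) = 0 := by
        intro k h1 h3
        apply hy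
        rw [hmem]
        rintro (⟨e, _, h⟩ | h | h)
        · exact absurd h (by simp)
        · exact h1 (Sum.inr.inj h)
        · exact h3 (Sum.inr.inj h)
      have hS : ∀ n, (∑ e, inc e n * y (Sum.inl e)) + ((if n = a i then 1 else 0) * y (Sum.inr i) +
          (if n = a j then 1 else 0) * y (Sum.inr j)) = 0 := by
        intro n
        have h3 := hK (some n)
        rw [hsumS, hstar (fun k => y (Sum.inr k)) (fun k => if n = a k then 1 else 0) hz] at h3
        exact h3
      have hy0 : (fun e => y (Sum.inl e)) = 0 := by
        apply H1
        · intro e he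
          apply hy
          rw [hmem]
          rintro (⟨e', he', h⟩ | h | h)
          · rw [Sum.inl.inj h] at he
            exact he he'
          · exact absurd h (by simp)
          · exact absurd h (by simp)
        · intro n hn
          have h3 := hS n
          rw [hg0] at hn
          rw [if_neg hn.1, if_neg hn.2] at h3
          simpa using h3
      have hyL : ∀ e, y (Sum.inl e) = 0 := fun e => congrFun hy0 e
      have hyi : y (Sum.inr i) = 0 := by
        have h3 := hS (a i)
        simp only [hyL, mul_zero, Finset.sum_const_zero, if_true, one_mul, zero_add, if_neg hpq,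
          zero_mul, add_zero] at h3
        exact h3
      have hyj : y (Sum.inr j) = 0 := by
        have h3 := hS (a j)
        simp only [hyL, mul_zero, Finset.sum_const_zero, if_true, one_mul, zero_add,
          if_neg hpq.symm, zero_mul, add_zero] at h3
        exact h3
      funext b
      rcases b with e | k
      · exact hyL e
      · show y (Sum.inr k) = 0
        by_cases h1 : k = i
        · rw [h1]; exact hyi
        · by_cases h3 : k = j
          · rw [h3]; exact hyj
          · exact hz k h1 h3
    · intro φ hφ
      have h4 : (fun n => φ (some n) + φ none) = 0 := by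
        apply H2
        · intro e he
          simp only [mul_add, Finset.sum_add_distrib, ← Finset.sum_mul, A3b_two h2, zero_mul,
            add_zero]
          have h5 := hφ (Sum.inl e) ((hmem _).2 (Or.inl ⟨e, he, rfl⟩))
          rw [hphiL] at h5
          exact h5
        · intro n m hnm
          rcases hg1 n m hnm with rfl | rfl
          · have h5 := hφ (Sum.inr i) ((hmem _).2 (Or.inr (Or.inl rfl)))
            rw [hphiR] at h5
            rw [add_comm]
            exact h5
          · have h5 := hφ (Sum.inr j) ((hmem _).2 (Or.inr (Or.inr rfl)))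
            rw [hphiR] at h5
            rw [add_comm]
            exact h5
      have h5 : ∀ n, φ n = φ none := by
        intro n
        rcases n with _ | n
        · rfl
        · exact A3b_char _ _ (congrFun h4 n)
      intro m n
      rw [h5 m, h5 n]

end CT
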