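import Pool.Agent.helper56.CT.SpecA

/-! Module JZ5 of project cd (MP_45d809_mp): expanding the last vertex. -/

namespace CT
open Finset

section
variable {V : Type} [DecidableEq V]

theorem JZ5_pr (t : Fin 3) : [(pr t).1, (pr t).2.1, (pr t).2.2.1, (pr t).2.2.2].Nodup ∧
    ∀ i, i = (pr t).1 ∨ i = (pr t).2.1 ∨ i = (pr t).2.2.1 ∨ i = (pr t).2.2.2 := by
  revert t
  decide

/-- smoothing a vertex: activity -/
theorem JZ5_act (S : Finset V) (e : V × Fin 4 → V × Fin 4) (u : V) (t : Fin 3)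
    (h : Act (dts S) e) (hu : u ∈ S) : Act (dts (S.erase u)) (sm e u t) := by
  obtain ⟨hn, hall⟩ := JZ5_pr t
  simp only [List.nodup_cons, List.mem_cons, List.not_mem_nil, or_false, not_or,
    List.nodup_nil, and_true, not_false_eq_true] at hn
  obtain ⟨⟨h1, h2, h3⟩, ⟨h4, h5⟩, h6⟩ := hn
  have k : ∀ {i j : Fin 4}, i ≠ j → (u, i) ≠ (u, j) := by
    intro i j hij h
    exact hij (Prod.mk.inj h).2
  have hm : ∀ i, (u, i) ∈ dts S := by
    intro i
    unfold dts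
    rw [Finset.mem_product]
    exact ⟨hu, Finset.mem_univ _⟩
  have a1 := join_act h (hm (pr t).1) (hm (pr t).2.1) (k h1)
  have m1 : (u, (pr t).2.2.1) ∈ ((dts S).erase (u, (pr t).1)).erase (u, (pr t).2.1) := by
    rw [Finset.mem_erase, Finset.mem_erase]
    exact ⟨k (Ne.symm h4), k (Ne.symm h2), hm _⟩
  have m2 : (u, (pr t).2.2.2) ∈ ((dts S).erase (u, (pr t).1)).erase (u, (pr t).2.1) := by
    rw [Finset.mem_erase, Finset.mem_erase]
    exact ⟨k (Ne.symm h5), k (Ne.symm h3), hm _⟩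
  have a2 := join_act a1 m1 m2 (k h6)
  have e1 : ((((dts S).erase (u, (pr t).1)).erase (u, (pr t).2.1)).erase
      (u, (pr t).2.2.1)).erase (u, (pr t).2.2.2) = dts (S.erase u) := by
    ext ⟨w, i⟩
    unfold dts
    simp only [Finset.mem_erase, Finset.mem_product, Finset.mem_univ, and_true, ne_eq,
      Prod.mk.injEq, not_and]
    constructor
    · rintro ⟨b1, b2, b3, b4, b5⟩
      refine ⟨?_, b5⟩
      intro hw
      rcases hall i with c | c | c | c
      · exact b4 hw c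
      · exact b3 hw c
      · exact b2 hw c
      · exact b1 hw c
    · rintro ⟨b1, b2⟩
      exact ⟨fun h => absurd h b1, fun h => absurd h b1, fun h => absurd h b1,
        fun h => absurd h b1, b2⟩
  rw [e1] at a2
  exact a2

theorem JZ5_fin (σ : Fin 4 → Fin 4) (h1 : ∀ i, σ (σ i) = i) (h2 : ∀ i, σ i ≠ i) :
    (lp σ 0 1 + lp (join σ 0 1) 2 3 = 2 ∧ lp σ 0 2 + lp (join σ 0 2) 1 3 = 1 ∧
      lp σ 0 3 + lp (join σ 0 3) 1 2 = 1) ∨
    (lp σ 0 1 + lp (join σ 0 1) 2 3 = 1 ∧ lp σ 0 2 + lp (join σ 0 2) 1 3 = 2 ∧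
      lp σ 0 3 + lp (join σ 0 3) 1 2 = 1) ∨
    (lp σ 0 1 + lp (join σ 0 1) 2 3 = 1 ∧ lp σ 0 2 + lp (join σ 0 2) 1 3 = 1 ∧
      lp σ 0 3 + lp (join σ 0 3) 1 2 = 2) := by
  have key : ∀ a b c d : Fin 4, (∀ i, ![a, b, c, d] (![a, b, c, d] i) = i) →
      (∀ i, ![a, b, c, d] i ≠ i) →
      (lp ![a, b, c, d] 0 1 + lp (join ![a, b, c, d] 0 1) 2 3 = 2 ∧
        lp ![a, b, c, d] 0 2 + lp (join ![a, b, c, d] 0 2) 1 3 = 1 ∧
        lp ![a, b, c, d] 0 3 + lp (join ![a, b, c, d] 0 3) 1 2 = 1) ∨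
      (lp ![a, b, c, d] 0 1 + lp (join ![a, b, c, d] 0 1) 2 3 = 1 ∧
        lp ![a, b, c, d] 0 2 + lp (join ![a, b, c, d] 0 2) 1 3 = 2 ∧
        lp ![a, b, c, d] 0 3 + lp (join ![a, b, c, d] 0 3) 1 2 = 1) ∨
      (lp ![a, b, c, d] 0 1 + lp (join ![a, b, c, d] 0 1) 2 3 = 1 ∧
        lp ![a, b, c, d] 0 2 + lp (join ![a, b, c, d] 0 2) 1 3 = 1 ∧
        lp ![a, b, c, d] 0 3 + lp (join ![a, b, c, d] 0 3) 1 2 = 2) := by
    decide
  have e : σ = ![σ 0, σ 1, σ 2, σ 3] := by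
    funext i
    fin_cases i <;> rfl
  rw [e]
  exact key _ _ _ _ (by rw [← e]; exact h1) (by rw [← e]; exact h2)

theorem JZ5_base (x : ℤ) (v : V) (e : V × Fin 4 → V × Fin 4) (h : Act (dts {v}) e) :
    Z x [v] e = x ^ 2 + 2 * x := by
  obtain ⟨he, hA⟩ := h
  have hv : ∀ i, (e (v, i)).1 = v := by
    intro i
    have h1 : e (v, i) ≠ (v, i) := (hA _).2 (by simp [dts])
    have h2 : e (v, i) ∈ dts {v} := by
      rw [← hA, he]
      exact Ne.symm h1
    unfold dts at h2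
    rw [Finset.mem_product, Finset.mem_singleton] at h2
    exact h2.1
  set σ : Fin 4 → Fin 4 := fun i => (e (v, i)).2 with hσ
  have hes : ∀ i, e (v, i) = (v, σ i) := fun i => Prod.ext (hv i) rfl
  have s1 : ∀ i, σ (σ i) = i := by
    intro i
    have := he (v, i)
    rw [hes, hes] at this
    exact (Prod.mk.inj this).2
  have s2 : ∀ i, σ i ≠ i := by
    intro i h
    have h1 : e (v, i) ≠ (v, i) := (hA _).2 (by simp [dts])
    apply h1
    rw [hes, h]
  have inj : ∀ i j : Fin 4, ((v, i) = (v, j)) ↔ i = j := by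
    intro i j
    simp
  have hlp : ∀ (f : V × Fin 4 → V × Fin 4) (τ : Fin 4 → Fin 4), (∀ i, f (v, i) = (v, τ i)) →
      ∀ a b, lp f (v, a) (v, b) = lp τ a b := by
    intro f τ hf a b
    unfold lp
    rw [hf]
    simp
  have hj : ∀ a b i, join e (v, a) (v, b) (v, i) = (v, join σ a b i) := by
    intro a b i
    unfold join
    simp only [hes, inj]
    split_ifs <;> rfl
  have hls : ∀ t : Fin 3, ls e v t = lp σ (pr t).1 (pr t).2.1 +
      lp (join σ (pr t).1 (pr t).2.1) (pr t).2.2.1 (pr t).2.2.2 := by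
    intro t
    unfold ls
    rw [hlp e σ hes, hlp _ _ (hj _ _)]
  have hZ : Z x [v] e = ∑ t : Fin 3, x ^ ls e v t * 1 := rfl
  rw [hZ, Fin.sum_univ_three, hls, hls, hls]
  show x ^ (lp σ 0 1 + lp (join σ 0 1) 2 3) * 1 + x ^ (lp σ 0 2 + lp (join σ 0 2) 1 3) * 1 +
    x ^ (lp σ 0 3 + lp (join σ 0 3) 1 2) * 1 = _
  rcases JZ5_fin σ s1 s2 with ⟨h1, h2, h3⟩ | ⟨h1, h2, h3⟩ | ⟨h1, h2, h3⟩ <;>
    rw [h1, h2, h3] <;> ring

end

theorem JZ5 : JZ5_stmt := by
  intro V _ x v L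
  induction L with
  | nil =>
    intro e _ _ h
    have h' : Act (dts {v}) e := h
    show Z x [v] e = (x ^ 2 + 2 * x) * 1
    rw [JZ5_base x v e h', mul_one]
  | cons u L ih =>
    intro e hn hv h
    rw [List.nodup_cons] at hn
    have hvu : v ≠ u := by
      rintro rfl
      exact hv (List.mem_cons_self ..)
    have hvL : v ∉ L := fun h2 => hv (List.mem_cons_of_mem _ h2)
    show ∑ t : Fin 3, x ^ ls e u t * Z x (L ++ [v]) (sm e u t) =
      (x ^ 2 + 2 * x) * ∑ t : Fin 3, x ^ ls e u t * Z x L (sm e u t)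
    rw [Finset.mul_sum]
    refine Finset.sum_congr rfl fun t _ => ?_
    have hS : (insert v (u :: L).toFinset).erase u = insert v L.toFinset := by
      ext w
      simp only [Finset.mem_erase, Finset.mem_insert, List.mem_toFinset, List.mem_cons]
      constructor
      · rintro ⟨a, b⟩
        tauto
      · rintro (rfl | b)
        · exact ⟨hvu, Or.inl rfl⟩
        · refine ⟨?_, Or.inr (Or.inr b)⟩
          rintro rfl
          exact hn.1 b
    have ha := JZ5_act _ e u t h (by simp)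
    rw [hS] at ha
    rw [ih (sm e u t) hn.2 hvL ha]
    ring

end CT
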